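import Pool.Agent.H84.NstB

namespace Pool.Agent.Results.MP_2e4b78_lc.Restr

open Pool.Agent.H84.NstDefs

theorem result (S : Set W) : Realised {X | ¬ IsStationary (X ∩ S)} :=
  Pool.Agent.H84.Nst.realised S

end Pool.Agent.Results.MP_2e4b78_lc.Restr
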