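import Pool.Agent.H84.NstB

namespace Pool.Agent.Results.MP_2e4b78_lc.Sat

open Pool.Agent.H84.NstDefs

theorem result (h : Saturated) (I : Set (Set W)) (r : Normal I) : Realised I :=
  (Pool.Agent.H84.Nst.restr h r).elim fun S e => e ▸ Pool.Agent.H84.Nst.realised S

end Pool.Agent.Results.MP_2e4b78_lc.Sat
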